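import Pool.Agent.Y139.GR.Synd

/-! Measures on the circle: characters, uniqueness, Wiener's lemma. -/

set_option autoImplicit false

namespace Pool.Agent.Y139.GR

open Filter Topology Complex MeasureTheory Pool.Agent.Y139.ID

/-- the `n`-th Fourier coefficient of a measure, `∫ e(n x) dμ(x)` -/
noncomputable def fc (μ : Measure UnitAddCircle) (n : ℤ) : ℂ := ∫ x, fourier n x ∂μ

theorem fc_add (μ ν : Measure UnitAddCircle) [IsFiniteMeasure μ] [IsFiniteMeasure ν] (n : ℤ) :
    fc (μ + ν) n = fc μ n + fc ν n := by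
  unfold fc
  exact integral_add_measure
    ((map_continuous (fourier n)).integrable_of_hasCompactSupport (HasCompactSupport.of_compactSpace _))
    ((map_continuous (fourier n)).integrable_of_hasCompactSupport (HasCompactSupport.of_compactSpace _))

variable (μ : Measure UnitAddCircle) [IsFiniteMeasure μ]

/-- multiplication by the character `n` -/
noncomputable def mulC (n : ℤ) : Lp ℂ 2 μ →L[ℂ] Lp ℂ 2 μ :=
  (ContinuousLinearMap.mul ℂ ℂ).holderL μ ⊤ 2 2 (ContinuousMap.toLp ⊤ μ ℂ (fourier n))

theorem coeFn_mulC (n : ℤ) (f : Lp ℂ 2 μ) :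
    mulC μ n f =ᵐ[μ] fun x => fourier n x * f x := by
  unfold mulC
  rw [ContinuousLinearMap.holderL_apply_apply]
  refine (ContinuousLinearMap.coeFn_holder _ _ _).trans ?_
  filter_upwards [ContinuousMap.coeFn_toLp (p := ⊤) (𝕜 := ℂ) μ (fourier n : C(UnitAddCircle, ℂ))]
    with x hx
  rw [hx]
  rfl

theorem urep_mulC : URep (mulC μ) where
  zero f := by
    refine Lp.ext ((coeFn_mulC μ 0 f).trans ?_)
    filter_upwards with x
    rw [fourier_zero, one_mul]
  add a b f := by
    refine Lp.ext ((coeFn_mulC μ (a + b) f).trans ?_)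
    filter_upwards [coeFn_mulC μ a (mulC μ b f), coeFn_mulC μ b f] with x h1 h2
    rw [h1, h2, fourier_add, mul_assoc]
  adj a f g := by
    rw [L2.inner_def, L2.inner_def]
    refine integral_congr_ae ?_
    filter_upwards [coeFn_mulC μ a f, coeFn_mulC μ (-a) g] with x h1 h2
    rw [h1, h2, fourier_neg]
    simp only [RCLike.inner_apply, map_mul]
    ring

theorem inner_mulC (n : ℤ) (f : Lp ℂ 2 μ) :
    inner ℂ f (mulC μ n f) = ∫ x, fourier n x * ((‖f x‖ ^ 2 : ℝ) : ℂ) ∂μ := by
  rw [L2.inner_def]
  refine integral_congr_ae ?_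
  filter_upwards [coeFn_mulC μ n f] with x h1
  rw [h1]
  simp only [RCLike.inner_apply]
  rw [mul_assoc, Complex.mul_conj, Complex.normSq_eq_norm_sq]

/-- the constant function `1` -/
noncomputable def one2 : Lp ℂ 2 μ := (memLp_const (1 : ℂ)).toLp (fun _ => (1 : ℂ))

theorem coeFn_one2 : (one2 μ : UnitAddCircle → ℂ) =ᵐ[μ] fun _ => (1 : ℂ) :=
  (memLp_const (1 : ℂ)).coeFn_toLp

theorem inner_one2 (n : ℤ) : inner ℂ (one2 μ) (mulC μ n (one2 μ)) = fc μ n := by
  rw [inner_mulC]
  refine integral_congr_ae ?_
  filter_upwards [coeFn_one2 μ] with x h1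
  rw [h1]
  simp

variable {μ}

theorem integrable_cont {f : UnitAddCircle → ℂ} (hf : Continuous f) : Integrable f μ :=
  hf.integrable_of_hasCompactSupport (HasCompactSupport.of_compactSpace f)

/-- a continuous linear functional which vanishes on the characters vanishes -/
theorem zero_of_fourier (L : C(UnitAddCircle, ℂ) →ₗ[ℂ] ℂ) (C : ℝ)
    (hL : ∀ f : C(UnitAddCircle, ℂ), ‖L f‖ ≤ C * ‖f‖)
    (h : ∀ n : ℤ, L (fourier n) = 0) (f : C(UnitAddCircle, ℂ)) : L f = 0 := by
  set Lc := L.mkContinuous C hL with hLc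
  have : Lc = 0 := by
    refine ContinuousLinearMap.ext_on (s := Set.range (fourier (T := (1 : ℝ)))) ?_ ?_
    · have h1 := span_fourier_closure_eq_top (T := (1 : ℝ))
      rw [dense_iff_closure_eq]
      have h2 := congrArg (fun S : Submodule ℂ C(UnitAddCircle, ℂ) =>
        (S : Set C(UnitAddCircle, ℂ))) h1
      simpa [Submodule.topologicalClosure_coe] using h2
    · rintro _ ⟨n, rfl⟩
      exact h n
  exact congrArg (fun T => T f) this

omit [IsFiniteMeasure μ] in
/-- an integrable function with vanishing Fourier coefficients vanishes -/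
theorem ae_zero {g : UnitAddCircle → ℂ} (hg : Integrable g μ)
    (h : ∀ n : ℤ, ∫ x, fourier n x * g x ∂μ = 0) : g =ᵐ[μ] 0 := by
  have hint : ∀ f : C(UnitAddCircle, ℂ), Integrable (fun x => f x * g x) μ := fun f =>
    hg.bdd_mul (f.continuous.aestronglyMeasurable)
      (Eventually.of_forall fun x => f.norm_coe_le_norm x)
  let L : C(UnitAddCircle, ℂ) →ₗ[ℂ] ℂ :=
    { toFun := fun f => ∫ x, f x * g x ∂μ
      map_add' := fun f f' => by
        rw [← integral_add (hint f) (hint f')]
        refine integral_congr_ae (Eventually.of_forall fun x => ?_)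
        simp [add_mul]
      map_smul' := fun a f => by
        simp only [ContinuousMap.smul_apply, smul_eq_mul, RingHom.id_apply, mul_assoc]
        rw [integral_const_mul] }
  have hL : ∀ f : C(UnitAddCircle, ℂ), ‖L f‖ ≤ (∫ x, ‖g x‖ ∂μ) * ‖f‖ := by
    intro f
    change ‖∫ x, f x * g x ∂μ‖ ≤ _
    refine (norm_integral_le_integral_norm _).trans ?_
    rw [← integral_mul_const]
    refine integral_mono (hint f).norm (hg.norm.mul_const _) fun x => ?_
    simp only
    rw [norm_mul, mul_comm]
    exact mul_le_mul_of_nonneg_left (f.norm_coe_le_norm x) (norm_nonneg _)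
  have h0 := zero_of_fourier L _ hL h
  refine ae_eq_zero_of_forall_setIntegral_isClosed_eq_zero hg fun F hF => ?_
  -- approximate the indicator function of `F`
  have hδpos : ∀ n : ℕ, (0 : ℝ) < 1 / (n + 1) := fun n => by positivity
  have hδlim : Tendsto (fun n : ℕ => 1 / ((n : ℝ) + 1)) atTop (𝓝 0) :=
    tendsto_one_div_add_atTop_nhds_zero_nat
  have hconv := thickenedIndicator_tendsto_indicator_closure hδpos hδlim F
  rw [hF.closure_eq] at hconv
  have hconv' := tendsto_pi_nhds.1 hconv
  have h1 : Tendsto (fun n : ℕ => ∫ x, ((thickenedIndicator (hδpos n) F x : ℝ) : ℂ) * g x ∂μ) atTop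
      (𝓝 (∫ x, F.indicator g x ∂μ)) := by
    refine tendsto_integral_of_dominated_convergence (fun x => ‖g x‖) (fun n => ?_) hg.norm
      (fun n => ?_) ?_
    · refine AEStronglyMeasurable.mul ?_ hg.aestronglyMeasurable
      exact (Complex.continuous_ofReal.comp (NNReal.continuous_coe.comp
        (thickenedIndicator (hδpos n) F).continuous)).aestronglyMeasurable
    · refine Eventually.of_forall fun x => ?_
      rw [norm_mul]
      refine mul_le_of_le_one_left (norm_nonneg _) ?_
      rw [Complex.norm_real, Real.norm_of_nonneg (NNReal.coe_nonneg _)]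
      exact_mod_cast thickenedIndicator_le_one (hδpos n) F x
    · refine Eventually.of_forall fun x => ?_
      have h2 := hconv' x
      have h3 := (((Complex.continuous_ofReal.tendsto _).comp
        ((NNReal.continuous_coe.tendsto _).comp h2)).mul_const (g x))
      refine h3.congr' (Eventually.of_forall fun n => rfl) |>.trans_eq ?_
      by_cases hxF : x ∈ F
      · simp [hxF]
      · simp [hxF]
  rw [integral_indicator hF.measurableSet] at h1
  refine tendsto_nhds_unique h1 (tendsto_const_nhds.congr fun n => ?_)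
  exact (h0 ⟨fun x => ((thickenedIndicator (hδpos n) F x : ℝ) : ℂ),
    Complex.continuous_ofReal.comp (NNReal.continuous_coe.comp
        (thickenedIndicator (hδpos n) F).continuous)⟩).symm

end Pool.Agent.Y139.GR
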