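import Pool.Agent.Y139.GR.Main

/-! Atomless measures with a gap which are invariant under `x ↦ p x` are Lebesgue measure. -/

set_option autoImplicit false

namespace Pool.Agent.Y139.GR

open Filter Topology Complex MeasureTheory Pool.Agent.Y139.ID

theorem continuous_nsmul' (d : ℕ) : Continuous fun x : UnitAddCircle => d • x := by fun_prop

/-- Fourier coefficients of the image under `x ↦ d x` -/
theorem fc_map (μ : Measure UnitAddCircle) (d : ℕ) (n : ℤ) :
    fc (μ.map fun x => d • x) n = fc μ (d * n) := by
  unfold fc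
  rw [integral_map (continuous_nsmul' d).aemeasurable
    (map_continuous (fourier n)).aestronglyMeasurable]
  refine integral_congr_ae (Eventually.of_forall fun x => ?_)
  simp only [fourier_apply]
  rw [← natCast_zsmul, smul_smul, mul_comm]

theorem fc_shift (μ : Measure UnitAddCircle) (c : UnitAddCircle) (n : ℤ) :
    fc (μ.map fun x => x + c) n = fourier n c * fc μ n := by
  unfold fc
  rw [integral_map (by fun_prop) (map_continuous (fourier n)).aestronglyMeasurable,
    ← integral_const_mul]
  refine integral_congr_ae (Eventually.of_forall fun x => ?_)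
  simp only [fourier_apply, smul_add, AddCircle.toCircle_add]
  push_cast
  ring

theorem finite_fiber {d : ℕ} (hd : 1 ≤ d) (y : UnitAddCircle) :
    {x : UnitAddCircle | d • x = y}.Finite := by
  classical
  set q : Polynomial ℂ := Polynomial.X ^ d - Polynomial.C (AddCircle.toCircle y : ℂ) with hq
  have hq0 : q ≠ 0 := Polynomial.X_pow_sub_C_ne_zero hd _
  have hinj : Set.InjOn (fun x : UnitAddCircle => (AddCircle.toCircle x : ℂ)) {x | d • x = y} := by
    intro x _ x' _ hxy
    exact AddCircle.injective_toCircle one_ne_zero (Subtype.ext hxy)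
  refine Set.Finite.of_finite_image (f := fun x : UnitAddCircle => (AddCircle.toCircle x : ℂ)) ?_ hinj
  refine (q.roots.toFinset.finite_toSet).subset ?_
  rintro _ ⟨x, hx, rfl⟩
  have hx : d • x = y := hx
  simp only [Finset.mem_coe, Multiset.mem_toFinset]
  refine (Polynomial.mem_roots hq0).2 ?_
  rw [Polynomial.IsRoot.def, hq]
  simp only [Polynomial.eval_sub, Polynomial.eval_pow, Polynomial.eval_X, Polynomial.eval_C]
  rw [← hx, AddCircle.toCircle_nsmul]
  push_cast
  ring

theorem atomless_map {μ : Measure UnitAddCircle} (hμ : ∀ x, μ {x} = 0) {d : ℕ}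
    (hd : 1 ≤ d) (y : UnitAddCircle) : (μ.map fun x => d • x) {y} = 0 := by
  rw [Measure.map_apply (continuous_nsmul' d).measurable (measurableSet_singleton y)]
  have : NullSingletonClass μ := ⟨hμ⟩
  exact (finite_fiber hd y).measure_zero μ

/-- a measure whose coefficients vanish on the nonzero multiples of `d` is at most `d` times Lebesgue
measure -/
theorem le_volume {μ : Measure UnitAddCircle} [IsProbabilityMeasure μ] {d : ℕ} (hd : 1 ≤ d)
    (h : ∀ n : ℤ, n ≠ 0 → fc μ (d * n) = 0) : μ ≤ (d : ENNReal) • (volume : Measure UnitAddCircle) := by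
  have hd0 : (d : ℝ) ≠ 0 := by positivity
  set c : ℕ → UnitAddCircle := fun j => ((j / d : ℝ) : UnitAddCircle) with hc
  set κ : Measure UnitAddCircle := Measure.sum fun j : Fin d => μ.map fun x => x + c j with hκ
  have hfin : ∀ j : Fin d, IsProbabilityMeasure (μ.map fun x => x + c j) := fun j =>
    Measure.isProbabilityMeasure_map (by fun_prop)
  have hκu : κ Set.univ = d := by
    rw [hκ, Measure.sum_apply _ MeasurableSet.univ]
    simp
  have hκf : IsFiniteMeasure κ := ⟨by rw [hκu]; exact ENNReal.natCast_lt_top d⟩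
  have hfcκ : ∀ n, fc κ n = ∑ j : Fin d, fourier n (c j) * fc μ n := by
    intro n
    have : fc κ n = ∑ j : Fin d, fc (μ.map fun x => x + c j) n := by
      unfold fc
      rw [hκ, integral_sum_measure, tsum_fintype]
      exact integrable_cm κ (fourier n)
    rw [this]
    exact Finset.sum_congr rfl fun j _ => fc_shift μ (c j) n
  have heq : κ = (d : ENNReal) • (volume : Measure UnitAddCircle) := by
    have : IsFiniteMeasure ((d : ENNReal) • (volume : Measure UnitAddCircle)) :=
      ⟨by simp⟩
    refine ext_fc fun n => ?_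
    have h1 : fc ((d : ENNReal) • (volume : Measure UnitAddCircle)) n = (d : ℂ) * fc volume n := by
      unfold fc
      rw [integral_smul_measure]
      simp
    rw [h1, fc_volume, hfcκ, ← Finset.sum_mul]
    by_cases hn0 : n = 0
    · subst hn0
      rw [fc_zero]
      simp
    rw [if_neg hn0, mul_zero]
    by_cases hdn : (d : ℤ) ∣ n
    · obtain ⟨m, rfl⟩ := hdn
      have hm0 : m ≠ 0 := by rintro rfl; exact hn0 (mul_zero _)
      rw [h m hm0, mul_zero]
    · have hz : ∀ j : ℕ, (fourier n (c j) : ℂ) = (fourier n (c 1)) ^ j := by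
        intro j
        have h2 : c j = j • c 1 := by
          rw [hc]
          simp only
          rw [← AddCircle.coe_nsmul]
          congr 1
          rw [nsmul_eq_mul]
          push_cast
          ring
        rw [h2, fourier_apply, fourier_apply, smul_comm, AddCircle.toCircle_nsmul]
        push_cast
        rfl
      have hcd : c d = 0 := by
        rw [hc]
        simp only
        rw [div_self hd0]
        exact AddCircle.coe_period 1
      have hz1 : (fourier n (c 1) : ℂ) ≠ 1 := by
        intro h3
        apply hdn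
        rw [hc] at h3
        simp only at h3
        rw [fourier_coe_apply, Complex.exp_eq_one_iff] at h3
        obtain ⟨k, hk⟩ := h3
        have hd' : (d : ℂ) ≠ 0 := by exact_mod_cast (show d ≠ 0 by omega)
        have h4 : (n : ℂ) = d * k := by
          push_cast at hk
          field_simp at hk
          exact hk
        exact ⟨k, by exact_mod_cast h4⟩
      have h7 : ∑ j : Fin d, (fourier n (c j) : ℂ) = 0 := by
        rw [Finset.sum_congr rfl fun (j : Fin d) _ => hz j]
        rw [Fin.sum_univ_eq_sum_range (fun j => (fourier n (c 1) : ℂ) ^ j) d, geom_sum_eq hz1, ← hz,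
          hcd, fourier_eval_zero, sub_self, zero_div]
      rw [h7, zero_mul]
  rw [← heq, hκ]
  have h0 : μ = μ.map fun x => x + c (⟨0, hd⟩ : Fin d) := by
    have : c 0 = 0 := by rw [hc]; simp
    simp only [this, add_zero]
    exact Measure.map_id.symm
  calc μ = μ.map fun x => x + c (⟨0, hd⟩ : Fin d) := h0
    _ ≤ _ := Measure.le_sum (fun j : Fin d => μ.map fun x => x + c j) ⟨0, hd⟩

/-- Bessel's inequality for a measure which is at most `d` times Lebesgue measure -/
theorem bessel {μ : Measure UnitAddCircle} [IsProbabilityMeasure μ] {d : ℕ}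
    (h : μ ≤ (d : ENNReal) • (volume : Measure UnitAddCircle)) (F : Finset ℤ) :
    ∑ n ∈ F, ‖fc μ n‖ ^ 2 ≤ d := by
  set S : ℝ := ∑ n ∈ F, ‖fc μ n‖ ^ 2 with hS
  have hS0 : 0 ≤ S := Finset.sum_nonneg fun n _ => by positivity
  set g : UnitAddCircle → ℂ := fun x => ∑ n ∈ F, (starRingEnd ℂ) (fc μ n) * fourier n x with hg
  have hgc : Continuous g := continuous_finsetSum _ fun n _ => continuous_const.mul (map_continuous _)
  have hgS : ∫ x, g x ∂μ = (S : ℂ) := by
    rw [hg, integral_finsetSum _ fun n _ => (integrable_cm μ (fourier n)).const_mul _, hS]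
    push_cast
    refine Finset.sum_congr rfl fun n _ => ?_
    rw [integral_const_mul]
    change (starRingEnd ℂ) (fc μ n) * fc μ n = _
    rw [← Complex.normSq_eq_conj_mul_self, Complex.normSq_eq_norm_sq]
    push_cast
    rfl
  have hconj : ∀ x, (starRingEnd ℂ) (g x) = tp (fc μ) F x := by
    intro x
    rw [hg]
    unfold tp
    simp only [map_sum, map_mul, RingHomCompTriple.comp_apply, RingHom.id_apply]
    refine Finset.sum_congr rfl fun n _ => ?_
    rw [fourier_neg]
  have hg2 : ∫ x : UnitAddCircle, ‖g x‖ ^ 2 = S := by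
    have h1 : ∫ x : UnitAddCircle, ((‖g x‖ ^ 2 : ℝ) : ℂ) = (S : ℂ) := by
      have h2 : ∀ x : UnitAddCircle, ((‖g x‖ ^ 2 : ℝ) : ℂ) =
          ∑ n ∈ F, (starRingEnd ℂ) (fc μ n) * (fourier n x * tp (fc μ) F x) := by
        intro x
        rw [← Complex.normSq_eq_norm_sq, Complex.normSq_eq_conj_mul_self, hconj, mul_comm, hg]
        simp only
        rw [Finset.sum_mul]
        exact Finset.sum_congr rfl fun n _ => by ring
      simp only [h2]
      have hI : ∀ n ∈ F, Integrable (fun x : UnitAddCircle =>
          (starRingEnd ℂ) (fc μ n) * (fourier n x * tp (fc μ) F x)) volume := fun n _ =>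
        integrable_cont (continuous_const.mul ((map_continuous (fourier n)).mul (continuous_tp _ _)))
      rw [integral_finsetSum _ hI]
      rw [hS]
      push_cast
      refine Finset.sum_congr rfl fun n hn => ?_
      rw [integral_const_mul, integral_tp, if_pos hn, ← Complex.normSq_eq_conj_mul_self,
        Complex.normSq_eq_norm_sq]
      push_cast
      rfl
    rw [integral_complex_ofReal] at h1
    exact_mod_cast h1
  have hcont2 : Continuous fun x => ‖g x‖ ^ 2 := by fun_prop
  have hint : ∀ (m : Measure UnitAddCircle) [IsFiniteMeasure m], Integrable (fun x => ‖g x‖ ^ 2) m :=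
    fun m _ => hcont2.integrable_of_hasCompactSupport (HasCompactSupport.of_compactSpace _)
  have hle : ∫ x, ‖g x‖ ^ 2 ∂μ ≤ d * S := by
    have hfin : IsFiniteMeasure ((d : ENNReal) • (volume : Measure UnitAddCircle)) := ⟨by simp⟩
    have h1 := integral_mono_measure h (Eventually.of_forall fun x => by positivity)
      (hint ((d : ENNReal) • (volume : Measure UnitAddCircle)))
    rw [integral_smul_measure, hg2] at h1
    simpa using h1
  -- `0 ≤ ∫ |g - S|²`
  have hpos : 0 ≤ ∫ x, ‖g x - (S : ℂ)‖ ^ 2 ∂μ := integral_nonneg fun x => by positivity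
  have hexp : ∫ x, ‖g x - (S : ℂ)‖ ^ 2 ∂μ = ∫ x, ‖g x‖ ^ 2 ∂μ - S ^ 2 := by
    have h2 : ∀ x, ‖g x - (S : ℂ)‖ ^ 2 = ‖g x‖ ^ 2 - 2 * S * (g x).re + S ^ 2 := by
      intro x
      rw [← Complex.normSq_eq_norm_sq, ← Complex.normSq_eq_norm_sq, Complex.normSq_apply,
        Complex.normSq_apply]
      simp only [Complex.sub_re, Complex.sub_im, Complex.ofReal_re, Complex.ofReal_im]
      ring
    have hre : Integrable (fun x => (g x).re) μ := (integrable_cont hgc).re
    have hre2 : ∫ x, (g x).re ∂μ = S := by
      have h3 := congrArg Complex.re hgS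
      rw [Complex.ofReal_re] at h3
      rw [← h3]
      exact integral_re (integrable_cont hgc)
    simp only [h2]
    have hI1 : Integrable (fun x => ‖g x‖ ^ 2 - 2 * S * (g x).re) μ := (hint μ).sub (hre.const_mul _)
    rw [integral_add hI1 (integrable_const _),
      integral_sub (hint μ) (hre.const_mul _), integral_const_mul, hre2]
    simp
    ring
  rw [hexp] at hpos
  have h3 : S ^ 2 ≤ d * S := by linarith
  rcases eq_or_lt_of_le hS0 with h4 | h4
  · rw [← h4]; positivity
  · nlinarith

/-- **Rigidity.** -/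
theorem rigid {μ : Measure UnitAddCircle} [IsProbabilityMeasure μ] (hμ : ∀ x, μ {x} = 0) {p : ℕ}
    (hp : 2 ≤ p) (hinv : MeasurePreserving (fun x : UnitAddCircle => p • x) μ μ) {d : ℕ} (hd : 1 ≤ d)
    {δ : ℝ} (hδ : 0 < δ) (hgap : ∀ n : ℤ, fc μ (d * n) = 0 ∨ δ ≤ ‖fc μ (d * n)‖) : μ = volume := by
  have hpinv : ∀ n : ℤ, fc μ (p * n) = fc μ n := fun n => by
    rw [← fc_map, hinv.map_eq]
  have hpow : ∀ (k : ℕ) (n : ℤ), fc μ (p ^ k * n) = fc μ n := by
    intro k
    induction k with
    | zero => intro n; simp
    | succ k ih =>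
      intro n
      rw [pow_succ', mul_assoc, hpinv, ih]
  have hinjp : ∀ n : ℤ, n ≠ 0 → Function.Injective fun k : ℕ => (p : ℤ) ^ k * n := by
    intro n hn a b hab
    have h1 : (p : ℤ) ^ a = (p : ℤ) ^ b := mul_right_cancel₀ hn hab
    have h2 : p ^ a = p ^ b := by exact_mod_cast h1
    exact Nat.pow_right_injective hp h2
  have hmapf : IsProbabilityMeasure (μ.map fun x => d • x) :=
    Measure.isProbabilityMeasure_map (continuous_nsmul' d).aemeasurable
  have hfin : {n : ℤ | fc μ (d * n) ≠ 0}.Finite := by
    have h1 := gap_finite (μ := μ.map fun x => d • x) (atomless_map hμ hd) hδ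
      (fun n => by rw [fc_map]; exact hgap n)
    simpa only [fc_map] using h1
  have hzero : ∀ n : ℤ, n ≠ 0 → fc μ (d * n) = 0 := by
    intro n hn
    by_contra h0
    refine Set.infinite_range_of_injective (hinjp n hn) (hfin.subset ?_)
    rintro _ ⟨k, rfl⟩
    change fc μ (d * ((p : ℤ) ^ k * n)) ≠ 0
    rw [mul_left_comm, hpow]
    exact h0
  have hle := le_volume hd hzero
  refine ext_fc fun n => ?_
  rw [fc_volume]
  split_ifs with hn
  · subst hn
    rw [fc_zero]
    simp
  · by_contra h0
    have hpos : 0 < ‖fc μ n‖ ^ 2 := by positivity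
    obtain ⟨K, hK⟩ := exists_nat_gt (d / ‖fc μ n‖ ^ 2)
    have h1 := bessel hle ((Finset.range K).image fun k : ℕ => (p : ℤ) ^ k * n)
    rw [Finset.sum_image fun a _ b _ hab => hinjp n hn hab] at h1
    simp only [hpow, Finset.sum_const, Finset.card_range, nsmul_eq_mul] at h1
    rw [div_lt_iff₀ hpos] at hK
    linarith

end Pool.Agent.Y139.GR
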