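import Pool.Agent.Y139.GR.Piece

/-! Atomless measures with a gap are trigonometric polynomials. -/

set_option autoImplicit false

namespace Pool.Agent.Y139.GR

open Filter Topology Complex MeasureTheory Pool.Agent.Y139.ID

theorem fc_neg (μ : Measure UnitAddCircle) (n : ℤ) : fc μ (-n) = (starRingEnd ℂ) (fc μ n) := by
  unfold fc
  rw [← integral_conj]
  refine integral_congr_ae (Eventually.of_forall fun x => ?_)
  simp only [fourier_neg]

theorem fc_zero (μ : Measure UnitAddCircle) [IsFiniteMeasure μ] : fc μ 0 = (μ.real Set.univ : ℂ) := by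
  unfold fc
  simp only [fourier_zero, integral_const]
  simp

theorem fc_zero_ne {μ : Measure UnitAddCircle} [IsFiniteMeasure μ] (hμ0 : μ ≠ 0) : fc μ 0 ≠ 0 := by
  rw [fc_zero]
  intro h
  have h2 : μ.real Set.univ = 0 := by exact_mod_cast h
  rw [measureReal_eq_zero_iff] at h2
  exact hμ0 (Measure.measure_univ_eq_zero.1 h2)

/-- the trigonometric polynomial of a measure with finitely many nonzero coefficients is real -/
theorem tp_real {ν : Measure UnitAddCircle} (hF : {n : ℤ | fc ν n ≠ 0}.Finite) (x : UnitAddCircle) :
    (starRingEnd ℂ) (tp (fc ν) hF.toFinset x) = tp (fc ν) hF.toFinset x := by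
  unfold tp
  rw [map_sum]
  refine Finset.sum_nbij' (fun n => -n) (fun n => -n) ?_ ?_ (fun n _ => neg_neg n)
    (fun n _ => neg_neg n) ?_
  · intro n hn
    rw [Set.Finite.mem_toFinset, Set.mem_ofPred_eq] at hn ⊢
    rw [fc_neg]
    intro h
    exact hn (by simpa using h)
  · intro n hn
    rw [Set.Finite.mem_toFinset, Set.mem_ofPred_eq] at hn ⊢
    rw [fc_neg]
    intro h
    exact hn (by simpa using h)
  · intro n _
    rw [map_mul, fc_neg, fourier_neg, neg_neg, RingHomCompTriple.comp_apply, RingHom.id_apply]

/-- a nonzero measure with finitely many nonzero coefficients has the null sets of Lebesgue measure -/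
theorem volume_ac {ν : Measure UnitAddCircle} [IsFiniteMeasure ν] (hν0 : ν ≠ 0)
    (hF : {n : ℤ | fc ν n ≠ 0}.Finite) : (volume : Measure UnitAddCircle) ≪ ν := by
  set P := tp (fc ν) hF.toFinset with hP
  have hPc : Continuous P := continuous_tp _ _
  set h : UnitAddCircle → ℝ := fun x => (P x).re with hh
  have hhc : Continuous h := Complex.continuous_re.comp hPc
  have hPh : ∀ x, P x = (h x : ℂ) := fun x => (Complex.conj_eq_iff_re.1 (tp_real hF x)).symm
  set f1 : UnitAddCircle → NNReal := fun x => (h x).toNNReal with hf1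
  set f2 : UnitAddCircle → NNReal := fun x => (-h x).toNNReal with hf2
  have hf1c : Continuous f1 := continuous_real_toNNReal.comp hhc
  have hf2c : Continuous f2 := continuous_real_toNNReal.comp hhc.neg
  have hfin : ∀ f : UnitAddCircle → NNReal, Continuous f →
      IsFiniteMeasure ((volume : Measure UnitAddCircle).withDensity fun x => (f x : ENNReal)) := by
    intro f hf
    refine isFiniteMeasure_withDensity ?_
    have hi : Integrable (fun x => (f x : ℝ)) (volume : Measure UnitAddCircle) :=
      (NNReal.continuous_coe.comp hf).integrable_of_hasCompactSupport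
        (HasCompactSupport.of_compactSpace _)
    have h2 := hi.hasFiniteIntegral
    unfold HasFiniteIntegral at h2
    refine ne_of_lt (lt_of_le_of_lt (le_of_eq ?_) h2)
    refine lintegral_congr fun x => ?_
    rw [← ofReal_norm, Real.norm_of_nonneg (NNReal.coe_nonneg _), ENNReal.ofReal_coe_nnreal]
  set m1 := (volume : Measure UnitAddCircle).withDensity fun x => (f1 x : ENNReal) with hm1
  set m2 := (volume : Measure UnitAddCircle).withDensity fun x => (f2 x : ENNReal) with hm2
  have hm1f : IsFiniteMeasure m1 := hfin f1 hf1c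
  have hm2f : IsFiniteMeasure m2 := hfin f2 hf2c
  have hmeq : ν + m2 = m1 := by
    refine ext_fc fun n => ?_
    rw [fc_add]
    have e1 : fc m1 n = ∫ x : UnitAddCircle, fourier n x * ((f1 x : ℝ) : ℂ) := by
      unfold fc
      rw [hm1, integral_withDensity_eq_integral_smul hf1c.measurable]
      refine integral_congr_ae (Eventually.of_forall fun x => ?_)
      simp only [NNReal.smul_def, Complex.real_smul]
      ring
    have e2 : fc m2 n = ∫ x : UnitAddCircle, fourier n x * ((f2 x : ℝ) : ℂ) := by
      unfold fc
      rw [hm2, integral_withDensity_eq_integral_smul hf2c.measurable]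
      refine integral_congr_ae (Eventually.of_forall fun x => ?_)
      simp only [NNReal.smul_def, Complex.real_smul]
      ring
    have e3 : fc ν n = ∫ x : UnitAddCircle, fourier n x * P x := by
      rw [hP, integral_tp]
      split_ifs with hn
      · rfl
      · rw [Set.Finite.mem_toFinset, Set.mem_ofPred_eq, not_not] at hn
        exact hn
    rw [e1, e2, e3, ← integral_add (integrable_cont (by fun_prop)) (integrable_cont (by fun_prop))]
    refine integral_congr_ae (Eventually.of_forall fun x => ?_)
    simp only
    rw [hPh, ← mul_add]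
    congr 1
    rw [hf1, hf2]
    simp only [Real.coe_toNNReal']
    have : h x + max (-h x) 0 = max (h x) 0 := by
      rcases le_total 0 (h x) with h1 | h1
      · rw [max_eq_left h1, max_eq_right (by linarith)]; ring
      · rw [max_eq_right h1, max_eq_left (by linarith)]; ring
    exact_mod_cast this
  -- the zero set
  have hzero : (volume : Measure UnitAddCircle) {x | h x = 0} = 0 := by
    have h1 : {x | h x = 0}.Finite := by
      have h2 := tp_zero (fc ν) hF.toFinset (n₀ := 0)
        (by rw [Set.Finite.mem_toFinset]; exact fc_zero_ne hν0) (fc_zero_ne hν0)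
      refine h2.subset fun x hx => ?_
      change P x = 0
      rw [hPh, show h x = 0 from hx]
      simp
    have h3 : ∀ x : UnitAddCircle, (volume : Measure UnitAddCircle) {x} = 0 := by
      intro x
      have h4 := AddCircle.volume_closedBall (T := (1 : ℝ)) (x := x) 0
      rw [Metric.closedBall_zero] at h4
      rw [h4]
      simp
    have hna : NullSingletonClass (volume : Measure UnitAddCircle) := ⟨h3⟩
    exact h1.measure_zero _
  refine Measure.AbsolutelyContinuous.mk fun A hA hνA => ?_
  have hpos : MeasurableSet {x | 0 < h x} := (isOpen_lt continuous_const hhc).measurableSet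
  have hneg : MeasurableSet {x | h x < 0} := (isOpen_lt hhc continuous_const).measurableSet
  have hsub : A ⊆ (A ∩ {x | 0 < h x}) ∪ (A ∩ {x | h x < 0}) ∪ {x | h x = 0} := by
    intro x hx
    rcases lt_trichotomy (h x) 0 with h1 | h1 | h1
    · exact Or.inl (Or.inr ⟨hx, h1⟩)
    · exact Or.inr h1
    · exact Or.inl (Or.inl ⟨hx, h1⟩)
  refine measure_mono_null hsub (measure_union_null (measure_union_null ?_ ?_) hzero)
  · -- positive part
    have hS : MeasurableSet (A ∩ {x | 0 < h x}) := hA.inter hpos
    have h1 : m2 (A ∩ {x | 0 < h x}) = 0 := by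
      rw [hm2, withDensity_apply _ hS, setLIntegral_eq_zero_iff hS
        (hf2c.measurable.coe_nnreal_ennreal)]
      refine Eventually.of_forall fun x hx => ?_
      have : 0 < h x := hx.2
      rw [hf2]
      simp only [ENNReal.coe_eq_zero, Real.toNNReal_eq_zero]
      linarith
    have h2 : m1 (A ∩ {x | 0 < h x}) = 0 := by
      rw [← hmeq, Measure.add_apply, h1, measure_mono_null Set.inter_subset_left hνA, add_zero]
    rw [hm1, withDensity_apply _ hS, setLIntegral_eq_zero_iff hS
        (hf1c.measurable.coe_nnreal_ennreal)] at h2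
    have h3 : ∀ᵐ x ∂(volume : Measure UnitAddCircle), x ∉ A ∩ {x | 0 < h x} := by
      filter_upwards [h2] with x hx hxA
      have h4 := hx hxA
      rw [hf1] at h4
      simp only [ENNReal.coe_eq_zero, Real.toNNReal_eq_zero] at h4
      have : 0 < h x := hxA.2
      linarith
    exact measure_eq_zero_iff_ae_notMem.2 h3
  · -- negative part
    have hS : MeasurableSet (A ∩ {x | h x < 0}) := hA.inter hneg
    have h1 : m1 (A ∩ {x | h x < 0}) = 0 := by
      rw [hm1, withDensity_apply _ hS, setLIntegral_eq_zero_iff hS
        (hf1c.measurable.coe_nnreal_ennreal)]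
      refine Eventually.of_forall fun x hx => ?_
      have : h x < 0 := hx.2
      rw [hf1]
      simp only [ENNReal.coe_eq_zero, Real.toNNReal_eq_zero]
      linarith
    have h2 : m2 (A ∩ {x | h x < 0}) = 0 := by
      rw [← hmeq, Measure.add_apply] at h1
      exact (add_eq_zero.1 h1).2
    rw [hm2, withDensity_apply _ hS, setLIntegral_eq_zero_iff hS
        (hf2c.measurable.coe_nnreal_ennreal)] at h2
    have h3 : ∀ᵐ x ∂(volume : Measure UnitAddCircle), x ∉ A ∩ {x | h x < 0} := by
      filter_upwards [h2] with x hx hxA
      have h4 := hx hxA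
      rw [hf2] at h4
      simp only [ENNReal.coe_eq_zero, Real.toNNReal_eq_zero] at h4
      have : h x < 0 := hxA.2
      linarith
    exact measure_eq_zero_iff_ae_notMem.2 h3

/-- **Main theorem.** A finite atomless measure on the circle whose nonzero Fourier coefficients are
bounded away from zero has only finitely many nonzero Fourier coefficients. -/
theorem gap_finite {μ : Measure UnitAddCircle} [IsFiniteMeasure μ] (hμ : ∀ x, μ {x} = 0) {δ : ℝ}
    (hδ : 0 < δ) (hgap : ∀ n, fc μ n = 0 ∨ δ ≤ ‖fc μ n‖) : {n : ℤ | fc μ n ≠ 0}.Finite := by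
  by_cases hμ0 : μ = 0
  · subst hμ0
    simp [fc]
  obtain ⟨B, hB, hB0, hBF⟩ := one_piece hμ hδ hgap hμ0
  set ν := μ.restrict B with hν
  set ρ := μ.restrict Bᶜ with hρ
  have hsum : ν + ρ = μ := Measure.restrict_add_restrict_compl hB
  have hfc : ∀ n, fc μ n = fc ν n + fc ρ n := fun n => by rw [← fc_add, hsum]
  by_cases hρ0 : ρ = 0
  · refine hBF.subset fun n hn => ?_
    have h1 := hfc n
    rw [hρ0] at h1
    have h2 : fc (0 : Measure UnitAddCircle) n = 0 := by simp [fc]
    rw [h2, add_zero] at h1
    exact fun h0 => hn (by rw [h1]; exact h0)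
  exfalso
  -- the rest has a gap
  have hρat : ∀ x, ρ {x} = 0 := fun x =>
    le_antisymm ((Measure.restrict_apply_le _ _).trans (hμ x).le) (by positivity)
  have hgap' : ∃ δ' : ℝ, 0 < δ' ∧ ∀ n, fc ρ n = 0 ∨ δ' ≤ ‖fc ρ n‖ := by
    classical
    have hex : ∀ S : Finset ℤ, ∃ ε : ℝ, 0 < ε ∧ ∀ n ∈ S, fc ρ n = 0 ∨ ε ≤ ‖fc ρ n‖ := by
      intro S
      induction S using Finset.induction_on with
      | empty => exact ⟨1, one_pos, by simp⟩
      | insert a S _ ih =>
        obtain ⟨ε, hε, h1⟩ := ih
        by_cases ha : fc ρ a = 0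
        · refine ⟨ε, hε, fun n hn => ?_⟩
          rcases Finset.mem_insert.1 hn with rfl | hn
          · exact Or.inl ha
          · exact h1 n hn
        · refine ⟨min ε ‖fc ρ a‖, lt_min hε (norm_pos_iff.2 ha), fun n hn => ?_⟩
          rcases Finset.mem_insert.1 hn with rfl | hn
          · exact Or.inr (min_le_right _ _)
          · rcases h1 n hn with h2 | h2
            · exact Or.inl h2
            · exact Or.inr ((min_le_left _ _).trans h2)
    obtain ⟨ε, hε, h1⟩ := hex hBF.toFinset
    refine ⟨min ε δ, lt_min hε hδ, fun n => ?_⟩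
    by_cases hn : fc ν n = 0
    · have h2 := hfc n
      rw [hn, zero_add] at h2
      rcases hgap n with h3 | h3
      · exact Or.inl (by rw [← h2]; exact h3)
      · exact Or.inr ((min_le_right _ _).trans (by rw [← h2]; exact h3))
    · rcases h1 n (by rw [Set.Finite.mem_toFinset]; exact hn) with h2 | h2
      · exact Or.inl h2
      · exact Or.inr ((min_le_left _ _).trans h2)
  obtain ⟨δ', hδ', hgap'⟩ := hgap'
  obtain ⟨B', hB', hB'0, hB'F⟩ := one_piece hρat hδ' hgap' hρ0
  have hν0 : ν ≠ 0 := fun h => hB0 (by
    have := congrArg (fun m : Measure UnitAddCircle => m B) h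
    simpa [hν, Measure.restrict_apply hB] using this)
  have hν'0 : ρ.restrict B' ≠ 0 := fun h => hB'0 (by
    have := congrArg (fun m : Measure UnitAddCircle => m B') h
    simpa [Measure.restrict_apply hB'] using this)
  have h1 := volume_ac hν0 hBF
  have h2 := volume_ac hν'0 hB'F
  have h3 : (volume : Measure UnitAddCircle) Bᶜ = 0 := h1 (by
    rw [hν, Measure.restrict_apply hB.compl, Set.compl_inter_self, measure_empty])
  have h4 : (volume : Measure UnitAddCircle) B = 0 := h2 (by
    refine le_antisymm ((Measure.restrict_apply_le _ _).trans ?_) (by positivity)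
    rw [hρ, Measure.restrict_apply hB, Set.inter_compl_self, measure_empty])
  have h5 : (volume : Measure UnitAddCircle) Set.univ = 0 := by
    rw [← Set.union_compl_self B]
    exact measure_union_null h4 h3
  simp at h5

end Pool.Agent.Y139.GR
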