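import Pool.Agent.Y139.GR.Wie

/-! One piece of a measure with a gap. -/

set_option autoImplicit false

namespace Pool.Agent.Y139.GR

open Filter Topology Complex MeasureTheory Pool.Agent.Y139.ID

theorem one_piece {μ : Measure UnitAddCircle} [IsFiniteMeasure μ] (hμ : ∀ x, μ {x} = 0) {δ : ℝ}
    (hδ : 0 < δ) (hgap : ∀ n, fc μ n = 0 ∨ δ ≤ ‖fc μ n‖) (hμ0 : μ ≠ 0) :
    ∃ B : Set UnitAddCircle, MeasurableSet B ∧ μ B ≠ 0 ∧
      {n : ℤ | fc (μ.restrict B) n ≠ 0}.Finite := by
  have hT := urep_mulC μ
  have hξ : ∀ a, inner ℂ (one2 μ) (mulC μ a (one2 μ)) = 0 ∨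
      δ ≤ ‖inner ℂ (one2 μ) (mulC μ a (one2 μ))‖ := fun a => by
    rw [inner_one2]; exact hgap a
  have hξ0 : one2 μ ≠ 0 := by
    intro h0
    have h1 := inner_one2 μ 0
    rw [h0, inner_zero_left] at h1
    unfold fc at h1
    simp only [fourier_zero, integral_const] at h1
    have h2 : μ.real Set.univ = 0 := by
      have := h1.symm
      simpa using this
    rw [measureReal_eq_zero_iff] at h2
    exact hμ0 (Measure.measure_univ_eq_zero.1 h2)
  obtain ⟨η, hη, hη0, hmin, horth⟩ := split hT hξ hδ hξ0
  -- `η` takes the values `0` and `1`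
  have hg : (fun x => inner ℂ (η x) ((one2 μ - η : Lp ℂ 2 μ) x)) =ᵐ[μ] 0 := by
    refine ae_zero (L2.integrable_inner η (one2 μ - η)) fun n => ?_
    rw [← horth (-n), L2.inner_def]
    refine integral_congr_ae ?_
    filter_upwards [coeFn_mulC μ (-n) η] with x h1
    rw [h1, fourier_neg]
    simp only [RCLike.inner_apply, map_mul, RingHomCompTriple.comp_apply, RingHom.id_apply]
    ring
  have hval : ∀ᵐ x ∂μ, η x = 0 ∨ η x = 1 := by
    filter_upwards [hg, coeFn_one2 μ, Lp.coeFn_sub (one2 μ) η] with x h1 h2 h3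
    rw [h3] at h1
    simp only [Pi.sub_apply, h2, RCLike.inner_apply, Pi.zero_apply, mul_eq_zero] at h1
    rcases h1 with h1 | h1
    · right; exact (sub_eq_zero.1 h1).symm
    · left; simpa using h1
  have hηm : Measurable (η : UnitAddCircle → ℂ) := (Lp.stronglyMeasurable η).measurable
  set B : Set UnitAddCircle := {x | η x = 1} with hB
  have hBm : MeasurableSet B := hηm (measurableSet_singleton 1)
  have hfc : ∀ n, fc (μ.restrict B) n = inner ℂ η (mulC μ n η) := by
    intro n
    rw [inner_mulC]
    unfold fc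
    rw [← integral_indicator hBm]
    refine integral_congr_ae ?_
    filter_upwards [hval] with x hx
    by_cases hxB : x ∈ B
    · have hx1 : η x = 1 := hxB
      rw [Set.indicator_of_mem hxB, hx1]
      simp
    · have hx0 : η x = 0 := by
        rcases hx with h | h
        · exact h
        · exact absurd h hxB
      rw [Set.indicator_of_notMem hxB, hx0]
      simp
  refine ⟨B, hBm, ?_, ?_⟩
  · intro h0
    apply hη0
    refine Lp.ext ?_
    have h1 : ∀ᵐ x ∂μ, x ∉ B := by
      rw [ae_iff]; simpa using h0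
    filter_upwards [hval, h1, Lp.coeFn_zero ℂ 2 μ] with x hx hxB hx0
    rw [hx0]
    rcases hx with h | h
    · simpa using h
    · exact absurd h hxB
  · simp only [hfc]
    by_contra hinf
    obtain ⟨M, hM⟩ := syndetic hT hη hmin hξ hη0 hδ hinf
    have hat : ∀ x, (μ.restrict B) {x} = 0 := fun x =>
      le_antisymm ((Measure.restrict_apply_le _ _).trans (hμ x).le) (by positivity)
    have hηpos : 0 < ‖η‖ := norm_pos_iff.2 hη0
    refine no_syndetic hat (c := ‖η‖ ^ 2 / 2) (by positivity) M fun L => ?_
    obtain ⟨n, h1, h2, h3⟩ := hM L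
    exact ⟨n, h1, h2, by rw [hfc]; exact h3⟩

/-- the characters are orthonormal for Lebesgue measure -/
theorem fc_volume (n : ℤ) : fc volume n = if n = 0 then 1 else 0 := by
  have h1 := fourierCoeff_fourier (T := (1 : ℝ)) (-n)
  have h2 := congrFun h1 0
  unfold fourierCoeff at h2
  unfold fc
  have h3 : (volume : Measure UnitAddCircle) = AddCircle.haarAddCircle := by
    rw [AddCircle.volume_eq_smul_haarAddCircle]; simp
  rw [h3]
  simp only [neg_zero, fourier_zero, one_smul] at h2
  by_cases hn : n = 0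
  · subst hn
    simp
  · rw [if_neg hn]
    have h4 := fourierCoeff_fourier (T := (1 : ℝ)) n
    have h5 := congrFun h4 0
    unfold fourierCoeff at h5
    simp only [neg_zero, fourier_zero, one_smul] at h5
    rw [h5, Pi.single_apply, if_neg (Ne.symm hn)]

/-- a trigonometric polynomial -/
noncomputable def tp (c : ℤ → ℂ) (F : Finset ℤ) (x : UnitAddCircle) : ℂ :=
  ∑ n ∈ F, c n * fourier (-n) x

theorem continuous_tp (c : ℤ → ℂ) (F : Finset ℤ) : Continuous (tp c F) := by
  unfold tp
  exact continuous_finsetSum _ fun n _ => continuous_const.mul (map_continuous _)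

theorem integral_tp (c : ℤ → ℂ) (F : Finset ℤ) (m : ℤ) :
    ∫ x : UnitAddCircle, fourier m x * tp c F x = if m ∈ F then c m else 0 := by
  unfold tp
  have h1 : ∀ x : UnitAddCircle, (fourier m x * ∑ n ∈ F, c n * fourier (-n) x : ℂ) =
      ∑ n ∈ F, c n * fourier (m - n) x := by
    intro x
    rw [Finset.mul_sum]
    refine Finset.sum_congr rfl fun n _ => ?_
    rw [sub_eq_add_neg, fourier_add]
    ring
  simp only [h1]
  rw [integral_finsetSum _ fun n _ => (integrable_cm volume (fourier (m - n))).const_mul _]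
  simp only [integral_const_mul]
  have h2 : ∀ n, ∫ x : UnitAddCircle, (fourier (m - n) x : ℂ) = if m = n then 1 else 0 := by
    intro n
    have := fc_volume (m - n)
    unfold fc at this
    rw [this]
    simp [sub_eq_zero]
  simp only [h2, mul_ite, mul_one, mul_zero]
  rw [Finset.sum_ite_eq]

/-- the zeros of a nonzero trigonometric polynomial are a null set -/
theorem tp_zero (c : ℤ → ℂ) (F : Finset ℤ) {n₀ : ℤ} (hn₀ : n₀ ∈ F) (hc : c n₀ ≠ 0) :
    {x : UnitAddCircle | tp c F x = 0}.Finite := by
  classical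
  set N : ℤ := ∑ n ∈ F, |n| with hN
  have hNn : ∀ n ∈ F, 0 ≤ N - n := fun n hn => by
    have h1 : |n| ≤ N := Finset.single_le_sum (f := fun n : ℤ => |n|) (fun n _ => abs_nonneg n) hn
    have := le_abs_self n
    linarith
  set q : Polynomial ℂ := ∑ n ∈ F, Polynomial.C (c n) * Polynomial.X ^ (N - n).toNat with hq
  have hq0 : q ≠ 0 := by
    intro h0
    have h1 : q.coeff (N - n₀).toNat = 0 := by rw [h0, Polynomial.coeff_zero]
    rw [hq, Polynomial.finsetSum_coeff] at h1
    simp only [Polynomial.coeff_C_mul, Polynomial.coeff_X_pow, mul_ite, mul_one, mul_zero] at h1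
    rw [Finset.sum_eq_single n₀] at h1
    · simp only [if_true] at h1
      exact hc h1
    · intro n hn hne
      rw [if_neg]
      intro h2
      apply hne
      have h3 : (((N - n₀).toNat : ℕ) : ℤ) = (((N - n).toNat : ℕ) : ℤ) := by rw [h2]
      rw [Int.toNat_of_nonneg (hNn n hn), Int.toNat_of_nonneg (hNn n₀ hn₀)] at h3
      linarith
    · intro h; exact absurd hn₀ h
  have hroot : ∀ x : UnitAddCircle, tp c F x = 0 → q.IsRoot (fourier 1 x : ℂ) := by
    intro x hx
    have hpow : ∀ n : ℕ, (fourier 1 x : ℂ) ^ n = fourier (n : ℤ) x := by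
      intro n
      induction n with
      | zero => simp
      | succ n ih => rw [pow_succ, ih, Nat.cast_succ, fourier_add]
    have h1 : q.eval (fourier 1 x : ℂ) = fourier N x * tp c F x := by
      rw [hq, Polynomial.eval_finsetSum]
      unfold tp
      rw [Finset.mul_sum]
      refine Finset.sum_congr rfl fun n hn => ?_
      rw [Polynomial.eval_mul, Polynomial.eval_C, Polynomial.eval_pow, Polynomial.eval_X, hpow,
        Int.toNat_of_nonneg (hNn n hn), sub_eq_add_neg, fourier_add]
      ring
    rw [Polynomial.IsRoot.def, h1, hx, mul_zero]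
  have hinj : Set.InjOn (fun x : UnitAddCircle => (fourier 1 x : ℂ)) {x | tp c F x = 0} := by
    intro x _ y _ hxy
    simp only [fourier_one] at hxy
    exact AddCircle.injective_toCircle one_ne_zero (Subtype.ext hxy)
  refine Set.Finite.of_finite_image (f := fun x : UnitAddCircle => (fourier 1 x : ℂ)) ?_ hinj
  refine (q.roots.toFinset.finite_toSet).subset ?_
  rintro _ ⟨x, hx, rfl⟩
  simp only [Finset.mem_coe, Multiset.mem_toFinset]
  exact (Polynomial.mem_roots hq0).2 (hroot x hx)

end Pool.Agent.Y139.GR
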