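import Pool.Agent.Y139.ID.PD

/-!
# Positive definite functions with a gap

Let `T` be a unitary representation of an abelian group and `ξ` a vector such that all nonzero
`⟪ξ, T_a ξ⟫` are at least `δ > 0` in absolute value.  Then the weak closure of the orbit of `ξ` has a
shortest nonzero vector, which can be chosen as an orthogonal summand of `ξ`.
-/

set_option autoImplicit false

namespace Pool.Agent.Y139.GR

open Filter Topology Complex Pool.Agent.Y139.ID

/-- the set `{0} ∪ {|z| ≥ δ}` is closed -/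
theorem isClosed_gap (δ : ℝ) : IsClosed {z : ℂ | z = 0 ∨ δ ≤ ‖z‖} := by
  have h1 : {z : ℂ | z = 0 ∨ δ ≤ ‖z‖} = {0} ∪ {z : ℂ | δ ≤ ‖z‖} := rfl
  rw [h1]
  exact isClosed_singleton.union (isClosed_le continuous_const continuous_norm)

section weak
variable {H ι : Type*} [NormedAddCommGroup H] [InnerProductSpace ℂ H]

theorem wlim_norm_le {x : ι → H} {f : Filter ι} [f.NeBot] {z : H} (h : WLim x f z) {C : ℝ}
    (hx : ∀ᶠ i in f, ‖x i‖ ≤ C) : ‖z‖ ≤ C := by
  have hC : 0 ≤ C := by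
    obtain ⟨i, hi⟩ := hx.exists
    exact (norm_nonneg _).trans hi
  have h1 : ‖inner ℂ z z‖ ≤ C * ‖z‖ := by
    refine le_of_tendsto (h z).norm (hx.mono fun i hi => ?_)
    exact (norm_inner_le_norm _ _).trans (mul_le_mul_of_nonneg_right hi (norm_nonneg _))
  have h2 : ‖inner ℂ z z‖ = ‖z‖ * ‖z‖ := by
    rw [inner_self_eq_norm_sq_to_K, sq, norm_mul]
    simp
  rw [h2] at h1
  rcases eq_or_lt_of_le (norm_nonneg z) with h0 | h0
  · rw [← h0]; exact hC
  · exact le_of_mul_le_mul_right h1 h0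

end weak

section rep
variable {G H : Type*} [AddCommGroup G] [NormedAddCommGroup H] [InnerProductSpace ℂ H]
variable {T : G → H →L[ℂ] H} (hT : URep T)

/-- the weak closure of the orbit is weakly closed -/
theorem orb_closed {ι : Type*} {ξ z : H} {x : ι → H} {g : Filter ι} [hg : g.NeBot]
    (hx : ∀ i, Orb T ξ (x i)) (hz : WLim x g z) : Orb T ξ z := by
  choose f hf hfx using hx
  refine ⟨g.bind f, ?_, fun y => ?_⟩
  · rw [Filter.neBot_iff]
    intro h0
    have h1 : ∀ᶠ a in g.bind f, False := by rw [h0]; exact Filter.mem_bot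
    rw [Filter.eventually_bind] at h1
    obtain ⟨c, hc⟩ := h1.exists
    have := hf c
    exact hc.exists.elim fun _ h => h
  · refine Filter.tendsto_def.2 fun s hs => ?_
    obtain ⟨o, hos, ho, hzo⟩ := mem_nhds_iff.1 hs
    have h1 : ∀ᶠ c in g, inner ℂ (x c) y ∈ o := (hz y) (ho.mem_nhds hzo)
    change ∀ᶠ a in g.bind f, inner ℂ (T a ξ) y ∈ s
    rw [Filter.eventually_bind]
    filter_upwards [h1] with c hc
    have h3 : ∀ᶠ a in f c, inner ℂ (T a ξ) y ∈ o := hfx c y (ho.mem_nhds hc)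
    exact h3.mono fun a ha => hos ha

include hT
variable {ξ : H} {δ : ℝ} (hξ : ∀ a, inner ℂ ξ (T a ξ) = 0 ∨ δ ≤ ‖inner ℂ ξ (T a ξ)‖)
include hξ

theorem gap_orb {x w : H} (hx : Orb T ξ x) (hw : Orb T ξ w) :
    inner ℂ x w = 0 ∨ δ ≤ ‖inner ℂ x w‖ := by
  obtain ⟨f, hf, hx⟩ := hx
  obtain ⟨g, hg, hw⟩ := hw
  refine (isClosed_gap δ).mem_of_tendsto (hx w) (Eventually.of_forall fun a => ?_)
  have h1 : inner ℂ w (T a ξ) = 0 ∨ δ ≤ ‖inner ℂ w (T a ξ)‖ :=
    (isClosed_gap δ).mem_of_tendsto (hw (T a ξ)) (Eventually.of_forall fun b => by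
      change inner ℂ (T b ξ) (T a ξ) = 0 ∨ δ ≤ ‖inner ℂ (T b ξ) (T a ξ)‖
      rw [hT.adj, ← hT.add]
      exact hξ (-b + a))
  change inner ℂ (T a ξ) w = 0 ∨ δ ≤ ‖inner ℂ (T a ξ) w‖
  rw [← inner_conj_symm, RCLike.norm_conj]
  rcases h1 with h1 | h1
  · left; rw [h1, map_zero]
  · right; exact h1

/-- a nonzero vector of the orbit closure has a translate which is not orthogonal to `ξ` -/
theorem exists_translate {w : H} (hw : Orb T ξ w) (hw0 : w ≠ 0) :
    ∃ a, δ ≤ ‖inner ℂ (T a w) ξ‖ := by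
  by_contra hcon
  push Not at hcon
  have h1 : ∀ a, inner ℂ (T a w) ξ = 0 := by
    intro a
    rcases gap_orb hT hξ (orb_trans hT hw a) (orb_self hT ξ) with h | h
    · exact h
    · exact absurd h (not_le.2 (hcon a))
  obtain ⟨f, hf, hfw⟩ := hw
  have h2 : inner ℂ w w = (0 : ℂ) := by
    refine tendsto_nhds_unique (hfw w) (tendsto_const_nhds.congr fun a => ?_)
    have h3 := h1 (-a)
    rw [hT.adj, neg_neg, ← inner_conj_symm] at h3
    have h4 := congrArg (starRingEnd ℂ) h3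
    rw [RingHomCompTriple.comp_apply, RingHom.id_apply, map_zero] at h4
    exact h4.symm
  exact hw0 (inner_self_eq_zero.1 h2)

theorem exists_min [CompleteSpace H] (hδ : 0 < δ) (h0 : ξ ≠ 0) : ∃ x, Orb T ξ x ∧ x ≠ 0 ∧
    ∀ w, Orb T ξ w → w ≠ 0 → ‖x‖ ≤ ‖w‖ := by
  set S : Set ℝ := {r | ∃ w, Orb T ξ w ∧ w ≠ 0 ∧ r = ‖w‖} with hS
  have hne : S.Nonempty := ⟨‖ξ‖, ξ, orb_self hT ξ, h0, rfl⟩
  have hbdd : BddBelow S := ⟨0, by rintro _ ⟨w, -, -, rfl⟩; exact norm_nonneg w⟩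
  have h1 : ∀ k : ℕ, ∃ w, Orb T ξ w ∧ δ ≤ ‖inner ℂ w ξ‖ ∧ ‖w‖ ≤ sInf S + 1 / (k + 1) := by
    intro k
    obtain ⟨_, ⟨w, hw, hw0, rfl⟩, hlt⟩ := exists_lt_of_csInf_lt hne
      (show sInf S < sInf S + 1 / ((k : ℝ) + 1) by
        have : (0 : ℝ) < 1 / ((k : ℝ) + 1) := by positivity
        linarith)
    obtain ⟨a, ha⟩ := exists_translate hT hξ hw hw0
    exact ⟨T a w, orb_trans hT hw a, ha, by rw [hT.norm]; exact hlt.le⟩
  choose w hw hwξ hwn using h1
  set U : Ultrafilter ℕ := Filter.hyperfilter ℕ with hU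
  have hbd : ∀ k, ‖w k‖ ≤ sInf S + 1 := fun k => (hwn k).trans (by
    have : 1 / ((k : ℝ) + 1) ≤ 1 := by
      rw [div_le_one (by positivity)]
      have : (0 : ℝ) ≤ k := Nat.cast_nonneg k
      linarith
    linarith)
  obtain ⟨x, hx⟩ := exists_wlim U w hbd
  have hOx : Orb T ξ x := orb_closed (g := (U : Filter ℕ)) hw hx
  have hxδ : δ ≤ ‖inner ℂ x ξ‖ := ge_of_tendsto (hx ξ).norm (Eventually.of_forall hwξ)
  have hx0 : x ≠ 0 := by
    rintro rfl
    rw [inner_zero_left, norm_zero] at hxδ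
    linarith
  have hUle : (U : Filter ℕ) ≤ atTop := by
    rw [← Nat.cofinite_eq_atTop]
    exact Filter.hyperfilter_le_cofinite
  have hxn : ‖x‖ ≤ sInf S := by
    refine le_of_forall_pos_le_add fun ε hε => ?_
    refine wlim_norm_le hx (C := sInf S + ε) ?_
    have h2 : ∀ᶠ k : ℕ in atTop, 1 / ((k : ℝ) + 1) < ε :=
      (tendsto_one_div_add_atTop_nhds_zero_nat (𝕜 := ℝ)).eventually_lt_const hε
    filter_upwards [hUle h2] with k hk
    exact (hwn k).trans (by linarith)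
  exact ⟨x, hOx, hx0, fun v hv hv0 => hxn.trans (csInf_le hbdd ⟨v, hv, hv0, rfl⟩)⟩

/-- a piece can be split off -/
theorem split [CompleteSpace H] (hδ : 0 < δ) (h0 : ξ ≠ 0) : ∃ η : H, Orb T ξ η ∧ η ≠ 0 ∧
    (∀ w, Orb T ξ w → w ≠ 0 → ‖η‖ ≤ ‖w‖) ∧ ∀ c, inner ℂ (T c η) (ξ - η) = 0 := by
  obtain ⟨x, hx, hx0, hmin⟩ := exists_min hT hξ hδ h0
  obtain ⟨f, hf, hfx⟩ := hx
  set U : Ultrafilter G := Ultrafilter.of f with hU
  have hUf : (U : Filter G) ≤ f := Ultrafilter.of_le f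
  have hUx : WLim (fun a => T a ξ) (U : Filter G) x := fun y => (hfx y).mono_left hUf
  have hx : Orb T ξ x := ⟨f, hf, hfx⟩
  obtain ⟨η, hη⟩ := exists_wlim U (fun a => T (-a) x) (C := ‖x‖) fun a => (hT.norm _ _).le
  have hOη : Orb T ξ η := by
    refine orb_lim hT hx (g := (U : Filter G).map Neg.neg) fun y => ?_
    rw [Filter.tendsto_map'_iff]
    exact hη y
  -- the scalar products with the translates of `ξ`
  have h1 : ∀ c, inner ℂ (T c η) ξ = inner ℂ (T c x) x := by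
    intro c
    have h2 : Tendsto (fun a => inner ℂ (T (-a) x) (T (-c) ξ)) (U : Filter G)
        (𝓝 (inner ℂ (T c η) ξ)) := by
      rw [hT.adj c η ξ]
      exact hη _
    have h3 : Tendsto (fun a => inner ℂ (T (-a) x) (T (-c) ξ)) (U : Filter G)
        (𝓝 (inner ℂ (T c x) x)) := by
      have h4 := (Complex.continuous_conj.tendsto _).comp (hUx (T c x))
      rw [inner_conj_symm] at h4
      refine h4.congr fun a => ?_
      simp only [Function.comp]
      rw [inner_conj_symm, hT.adj c x, hT.adj (-a) x, ← hT.add, ← hT.add, neg_neg]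
      congr 2
      abel_nf
    exact tendsto_nhds_unique h2 h3
  have h2 : inner ℂ η ξ = ((‖x‖ ^ 2 : ℝ) : ℂ) := by
    have h3 := h1 0
    rw [hT.zero, hT.zero, inner_self_eq_norm_sq_to_K] at h3
    rw [h3]
    simp
  have hη0 : η ≠ 0 := by
    rintro rfl
    rw [inner_zero_left] at h2
    have h3 : ‖x‖ ^ 2 = 0 := by exact_mod_cast h2.symm
    exact hx0 (norm_eq_zero.1 (by simpa using h3))
  have hnη : ‖x‖ = ‖η‖ := by
    refine le_antisymm (hmin η hOη hη0) ?_
    exact hη.norm_le fun a => (hT.norm _ _).le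
  have hstrong : Tendsto (fun a => T (-a) x) (U : Filter G) (𝓝 η) :=
    tendsto_iff_norm_sub_tendsto_zero.2 (hη.strong fun a => (hT.norm _ _).trans hnη)
  have h3 : ∀ c, inner ℂ (T c η) η = inner ℂ (T c x) x := by
    intro c
    have h4 : Tendsto (fun a => inner ℂ (T c (T (-a) x)) (T (-a) x)) (U : Filter G)
        (𝓝 (inner ℂ (T c η) η)) :=
      (((T c).continuous.tendsto _).comp hstrong).inner hstrong
    refine tendsto_nhds_unique h4 (tendsto_const_nhds.congr fun a => ?_)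
    rw [hT.comm c (-a) x, hT.inner_eq]
  exact ⟨η, hOη, hη0, fun w hw hw0 => by rw [← hnη]; exact hmin w hw hw0,
    fun c => by rw [inner_sub_right, h1, h3, sub_self]⟩

end rep

end Pool.Agent.Y139.GR
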