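import Pool.Agent.Y139.GR.Rep

/-!
# Shortest vectors of the orbit closure for a representation of the integers
-/

set_option autoImplicit false

namespace Pool.Agent.Y139.GR

open Filter Topology Complex Pool.Agent.Y139.ID

section gen
variable {G H : Type*} [AddCommGroup G] [NormedAddCommGroup H] [InnerProductSpace ℂ H]
variable {T : G → H →L[ℂ] H} (hT : URep T)
include hT

theorem dist_sub (n m : G) (z : H) : ‖T n z - T m z‖ = ‖T (n - m) z - z‖ := by
  have h1 : T n z - T m z = T m (T (n - m) z - z) := by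
    rw [map_sub, ← hT.add, add_sub_cancel]
  rw [h1, hT.norm]

theorem dist_neg (n : G) (z : H) : ‖T (-n) z - z‖ = ‖T n z - z‖ := by
  have h1 := dist_sub hT 0 n z
  rw [hT.zero, zero_sub] at h1
  rw [← h1, norm_sub_rev]

theorem dist_add (n m : G) (z : H) : ‖T (n + m) z - z‖ ≤ ‖T n z - z‖ + ‖T m z - z‖ := by
  have h1 : T (n + m) z - z = T n (T m z - z) + (T n z - z) := by
    rw [map_sub, ← hT.add]; abel
  rw [h1]
  refine (norm_add_le _ _).trans ?_
  rw [hT.norm, add_comm]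

theorem inner_eq_dist (n : G) (z : H) :
    (inner ℂ z (T n z)).re = ‖z‖ ^ 2 - ‖T n z - z‖ ^ 2 / 2 := by
  have h1 := @norm_sub_sq ℂ H _ _ _ (T n z) z
  rw [hT.norm] at h1
  have h2 : RCLike.re (inner ℂ (T n z) z) = (inner ℂ z (T n z)).re :=
    inner_re_symm (𝕜 := ℂ) _ _
  rw [h2] at h1
  linarith

variable {ξ z : H} (hz : Orb T ξ z) (hmin : ∀ w, Orb T ξ w → w ≠ 0 → ‖z‖ ≤ ‖w‖)
include hz hmin

theorem strong_of_ne {ι : Type*} (U : Ultrafilter ι) (a : ι → G) {w : H}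
    (hw : WLim (fun i => T (a i) z) (U : Filter ι) w) (hw0 : w ≠ 0) :
    Tendsto (fun i => ‖T (a i) z - w‖) (U : Filter ι) (𝓝 0) := by
  have hOw : Orb T ξ w := by
    refine orb_lim hT hz (g := (U : Filter ι).map a) fun y => ?_
    rw [Filter.tendsto_map'_iff]
    exact hw y
  have h2 : ‖w‖ ≤ ‖z‖ := hw.norm_le fun i => (hT.norm _ z).le
  have h3 : ‖w‖ = ‖z‖ := le_antisymm h2 (hmin w hOw hw0)
  exact hw.strong fun i => (hT.norm _ z).trans h3.symm

/-- total boundedness -/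
theorem tot_bdd [CompleteSpace H] (hz0 : z ≠ 0) {ε : ℝ} (hε : 0 < ε) : ∃ F : Finset G, ∀ n : G,
    ‖T n z - z‖ ≤ ‖z‖ → ∃ f ∈ F, ‖T (n - f) z - z‖ < ε := by
  classical
  by_contra hcon
  push Not at hcon
  choose a ha hF using hcon
  set U : Ultrafilter (Finset G) := Ultrafilter.of atTop with hU
  have hUle : (U : Filter (Finset G)) ≤ atTop := Ultrafilter.of_le _
  obtain ⟨w, hw⟩ := exists_wlim U (fun F => T (a F) z) (C := ‖z‖) fun F => (hT.norm _ z).le
  have hzpos : 0 < ‖z‖ := norm_pos_iff.2 hz0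
  have hw0 : w ≠ 0 := by
    rintro rfl
    have h1 := (Complex.continuous_re.tendsto _).comp (hw z)
    rw [inner_zero_left] at h1
    have h2 : ‖z‖ ^ 2 / 2 ≤ (0 : ℂ).re := by
      refine ge_of_tendsto h1 (Eventually.of_forall fun F => ?_)
      simp only [Function.comp]
      have h3 := inner_eq_dist hT (a F) z
      have h4 : (inner ℂ (T (a F) z) z).re = (inner ℂ z (T (a F) z)).re :=
        inner_re_symm (𝕜 := ℂ) _ _
      rw [h4, h3]
      have h5 := ha F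
      have h6 := norm_nonneg (T (a F) z - z)
      nlinarith
    simp only [Complex.zero_re] at h2
    nlinarith
  have hst := strong_of_ne hT hz hmin U a hw hw0
  have h5 : ∀ᶠ F in (U : Filter (Finset G)), ‖T (a F) z - w‖ < ε / 2 :=
    hst.eventually_lt_const (by linarith)
  obtain ⟨F₀, hF₀⟩ := h5.exists
  have h6 : ∀ᶠ F in (U : Filter (Finset G)), a F₀ ∈ F := by
    refine hUle ?_
    filter_upwards [eventually_ge_atTop ({a F₀} : Finset G)] with F hF'
    exact hF' (Finset.mem_singleton_self _)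
  obtain ⟨F, hF1, hF2⟩ := (h5.and h6).exists
  have h7 := hF F (a F₀) hF2
  rw [← dist_sub hT] at h7
  have h8 : ‖T (a F) z - T (a F₀) z‖ ≤ ‖T (a F) z - w‖ + ‖T (a F₀) z - w‖ := by
    have : T (a F) z - T (a F₀) z = (T (a F) z - w) - (T (a F₀) z - w) := by abel
    rw [this]
    exact norm_sub_le _ _
  linarith

end gen

section int
variable {H : Type*} [NormedAddCommGroup H] [InnerProductSpace ℂ H] [CompleteSpace H]
variable {T : ℤ → H →L[ℂ] H} (hT : URep T)
variable {ξ z : H} (hz : Orb T ξ z) (hmin : ∀ w, Orb T ξ w → w ≠ 0 → ‖z‖ ≤ ‖w‖)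
variable {δ : ℝ} (hξ : ∀ a, inner ℂ ξ (T a ξ) = 0 ∨ δ ≤ ‖inner ℂ ξ (T a ξ)‖)
include hT hz hmin hξ

/-- recurrence -/
theorem recur (hδ : 0 < δ) (hinf : {n : ℤ | inner ℂ z (T n z) ≠ 0}.Infinite) {ε : ℝ} (hε : 0 < ε)
    (K : ℤ) : ∃ r : ℤ, K < r ∧ ‖T r z - z‖ < ε := by
  set S : Set ℤ := {n : ℤ | inner ℂ z (T n z) ≠ 0} with hS
  have : Infinite S := hinf.to_subtype
  set U : Ultrafilter S := Filter.hyperfilter S with hU
  obtain ⟨w, hw⟩ := exists_wlim U (fun i : S => T (i : ℤ) z) (C := ‖z‖) fun i => (hT.norm _ z).le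
  have hw0 : w ≠ 0 := by
    rintro rfl
    have h1 : δ ≤ ‖inner ℂ (0 : H) z‖ := by
      refine ge_of_tendsto (hw z).norm (Eventually.of_forall fun i => ?_)
      rcases gap_orb hT hξ (orb_trans hT hz (i : ℤ)) hz with h | h
      · exact absurd (by rw [← inner_conj_symm, h, map_zero]) i.2
      · exact h
    rw [inner_zero_left, norm_zero] at h1
    linarith
  have hst := strong_of_ne hT hz hmin U (fun i : S => (i : ℤ)) hw hw0
  have h5 : ∀ᶠ i : S in (U : Filter S), ‖T (i : ℤ) z - w‖ < ε / 2 :=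
    hst.eventually_lt_const (by linarith)
  have h6 : {i : S | ‖T (i : ℤ) z - w‖ < ε / 2}.Infinite := by
    intro hfin
    have h7 : {i : S | ‖T (i : ℤ) z - w‖ < ε / 2}ᶜ ∈ (U : Filter S) :=
      Filter.hyperfilter_le_cofinite (by simpa using hfin)
    have h8 := Filter.inter_mem h5 h7
    rw [show ({x : S | ‖T (x : ℤ) z - w‖ < ε / 2} ∩ {i : S | ‖T (i : ℤ) z - w‖ < ε / 2}ᶜ) = ∅ from
      Set.inter_compl_self _] at h8
    exact U.empty_notMem h8
  obtain ⟨i, hi⟩ := h6.nonempty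
  have hi : ‖T (i : ℤ) z - w‖ < ε / 2 := hi
  have h7 : ∃ j ∈ {i : S | ‖T (i : ℤ) z - w‖ < ε / 2}, (j : ℤ) ∉ Set.Icc ((i : ℤ) - |K|) (i + |K|) := by
    by_contra hcon
    push Not at hcon
    refine h6 (Set.Finite.subset
      (Set.Finite.preimage (f := fun j : S => (j : ℤ)) Subtype.val_injective.injOn
        (Set.finite_Icc ((i : ℤ) - |K|) (i + |K|))) fun j hj => hcon j hj)
  obtain ⟨j, hj, hjK⟩ := h7
  have hj : ‖T (j : ℤ) z - w‖ < ε / 2 := hj
  have h8 : ‖T ((i : ℤ) - j) z - z‖ < ε := by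
    rw [← dist_sub hT]
    have : T (i : ℤ) z - T (j : ℤ) z = (T (i : ℤ) z - w) - (T (j : ℤ) z - w) := by abel
    rw [this]
    exact (norm_sub_le _ _).trans_lt (by linarith)
  have hK := le_abs_self K
  rw [Set.mem_Icc, not_and_or, not_le, not_le] at hjK
  rcases hjK with h | h
  · exact ⟨i - j, by linarith, h8⟩
  · refine ⟨j - i, by linarith, ?_⟩
    rw [← dist_neg hT, neg_sub]
    exact h8

/-- the return times are syndetic -/
theorem syndetic (hz0 : z ≠ 0) (hδ : 0 < δ) (hinf : {n : ℤ | inner ℂ z (T n z) ≠ 0}.Infinite) :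
    ∃ M : ℕ, ∀ L : ℕ, ∃ n : ℕ, L ≤ n ∧ n ≤ L + M ∧ ‖z‖ ^ 2 / 2 ≤ ‖inner ℂ z (T n z)‖ := by
  have hzpos : 0 < ‖z‖ := norm_pos_iff.2 hz0
  obtain ⟨F, hF⟩ := tot_bdd hT hz hmin hz0 (ε := ‖z‖ / 2) (by linarith)
  set B : ℤ := ∑ f ∈ F, |f| with hB
  have hBf : ∀ f ∈ F, |f| ≤ B := fun f hf =>
    Finset.single_le_sum (f := fun f : ℤ => |f|) (fun f _ => abs_nonneg f) hf
  obtain ⟨r, hr, hrz⟩ := recur hT hz hmin hξ hδ hinf (ε := ‖z‖ / 2) (by linarith) B
  have hB0 : 0 ≤ B := Finset.sum_nonneg fun f _ => abs_nonneg f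
  have hstep : ∀ n : ℤ, ‖T n z - z‖ ≤ ‖z‖ → ∃ n' : ℤ, n < n' ∧ n' ≤ n + (r + B) ∧
      ‖T n' z - z‖ ≤ ‖z‖ := by
    intro n hn
    obtain ⟨f, hf, hfn⟩ := hF n hn
    have h1 := abs_le.1 (hBf f hf)
    refine ⟨(n - f) + r, by linarith, by linarith, ?_⟩
    have := dist_add hT (n - f) r z
    linarith
  set M : ℕ := (r + B).toNat with hM
  have hMr : ((M : ℕ) : ℤ) = r + B := Int.toNat_of_nonneg (by linarith)
  have key : ∀ L : ℕ, ∃ n : ℕ, L ≤ n ∧ n ≤ L + M ∧ ‖T n z - z‖ ≤ ‖z‖ := by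
    intro L
    induction L with
    | zero =>
      refine ⟨0, le_rfl, Nat.zero_le _, ?_⟩
      rw [Nat.cast_zero, hT.zero, sub_self, norm_zero]
      exact hzpos.le
    | succ L ih =>
      obtain ⟨n, h1, h2, h3⟩ := ih
      rcases eq_or_lt_of_le h1 with h4 | h4
      · obtain ⟨n', h5, h6, h7⟩ := hstep n h3
        have h8 : ((n'.toNat : ℕ) : ℤ) = n' := Int.toNat_of_nonneg (by
          have : (0 : ℤ) ≤ n := Int.natCast_nonneg n
          linarith)
        refine ⟨n'.toNat, ?_, ?_, ?_⟩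
        · zify; rw [h8]; have : (L : ℤ) = n := by exact_mod_cast h4
          linarith
        · zify; rw [h8, hMr]; have : (L : ℤ) = n := by exact_mod_cast h4
          linarith
        · rw [h8]; exact h7
      · exact ⟨n, h4, by omega, h3⟩
  refine ⟨M, fun L => ?_⟩
  obtain ⟨n, h1, h2, h3⟩ := key L
  refine ⟨n, h1, h2, ?_⟩
  refine le_trans ?_ (Complex.abs_re_le_norm _)
  rw [inner_eq_dist hT]
  refine le_trans ?_ (le_abs_self _)
  have := norm_nonneg (T n z - z)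
  nlinarith

end int

end Pool.Agent.Y139.GR
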