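import Pool.Agent.Y139.GR.Circ

/-! Uniqueness of measures and Wiener's lemma for atomless measures. -/

set_option autoImplicit false

namespace Pool.Agent.Y139.GR

open Filter Topology Complex MeasureTheory Pool.Agent.Y139.ID

theorem integrable_cm (μ : Measure UnitAddCircle) [IsFiniteMeasure μ] (f : C(UnitAddCircle, ℂ)) :
    Integrable (fun x => f x) μ := integrable_cont f.continuous

/-- uniqueness -/
theorem ext_fc {μ ν : Measure UnitAddCircle} [IsFiniteMeasure μ] [IsFiniteMeasure ν]
    (h : ∀ n, fc μ n = fc ν n) : μ = ν := by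
  let L : C(UnitAddCircle, ℂ) →ₗ[ℂ] ℂ :=
    { toFun := fun f => ∫ x, f x ∂μ - ∫ x, f x ∂ν
      map_add' := fun f f' => by
        simp only [ContinuousMap.add_apply]
        rw [integral_add (integrable_cm μ f) (integrable_cm μ f'),
          integral_add (integrable_cm ν f) (integrable_cm ν f')]
        ring
      map_smul' := fun a f => by
        simp only [ContinuousMap.smul_apply, smul_eq_mul, RingHom.id_apply]
        rw [integral_const_mul, integral_const_mul]
        ring }
  have hb : ∀ (ρ : Measure UnitAddCircle) [IsFiniteMeasure ρ] (f : C(UnitAddCircle, ℂ)),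
      ‖∫ x, f x ∂ρ‖ ≤ ‖f‖ * ρ.real Set.univ := fun ρ _ f =>
    norm_integral_le_of_norm_le_const (Eventually.of_forall fun x => f.norm_coe_le_norm x)
  have hL : ∀ f : C(UnitAddCircle, ℂ), ‖L f‖ ≤ (μ.real Set.univ + ν.real Set.univ) * ‖f‖ := by
    intro f
    change ‖∫ x, f x ∂μ - ∫ x, f x ∂ν‖ ≤ _
    refine (norm_sub_le _ _).trans ?_
    have := hb μ f
    have := hb ν f
    nlinarith
  have h0 := zero_of_fourier L _ hL fun n => sub_eq_zero.2 (h n)
  refine ext_of_forall_integral_eq_of_IsFiniteMeasure fun f => ?_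
  have h1 := h0 ⟨fun x => (f x : ℂ), by fun_prop⟩
  have h2 : ∫ x, ((f x : ℝ) : ℂ) ∂μ = ∫ x, ((f x : ℝ) : ℂ) ∂ν := sub_eq_zero.1 h1
  rw [integral_complex_ofReal, integral_complex_ofReal] at h2
  exact_mod_cast h2

theorem fourier_sub_apply (n : ℤ) (x y : UnitAddCircle) :
    (fourier n (x - y) : ℂ) = fourier n x * (starRingEnd ℂ) (fourier n y) := by
  rw [← fourier_neg]
  have h1 : n • (x - y) = n • x + (-n) • y := by rw [smul_sub, neg_smul, sub_eq_add_neg]
  rw [fourier_apply, fourier_apply, fourier_apply, h1, AddCircle.toCircle_add]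
  push_cast
  rfl

theorem normSq_fc (ν : Measure UnitAddCircle) [IsFiniteMeasure ν] (n : ℤ) :
    ((‖fc ν n‖ ^ 2 : ℝ) : ℂ) = ∫ z, (fourier n (z.1 - z.2) : ℂ) ∂(ν.prod ν) := by
  simp only [fourier_sub_apply]
  rw [integral_prod_mul (fun x => (fourier n x : ℂ)) fun y => (starRingEnd ℂ) (fourier n y : ℂ),
    integral_conj, ← Complex.normSq_eq_norm_sq, Complex.normSq_eq_conj_mul_self, mul_comm]
  rfl

/-- **Wiener's lemma** for atomless measures -/
theorem wiener {ν : Measure UnitAddCircle} [IsFiniteMeasure ν] (hν : ∀ x, ν {x} = 0) :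
    Tendsto (fun N : ℕ => (1 / (N : ℝ)) * ∑ n ∈ Finset.range N, ‖fc ν n‖ ^ 2) atTop (𝓝 0) := by
  set K : ℕ → UnitAddCircle → ℂ := fun N t => (1 / (N : ℂ)) * ∑ n ∈ Finset.range N, fourier (n : ℤ) t
    with hK
  have hKc : ∀ N, Continuous (K N) := fun N => by
    rw [hK]
    refine continuous_const.mul (continuous_finsetSum _ fun n _ => map_continuous _)
  have hK1 : ∀ N t, ‖K N t‖ ≤ 1 := by
    intro N t
    rw [hK]
    simp only [norm_mul, norm_div, norm_one, Complex.norm_natCast]
    rcases Nat.eq_zero_or_pos N with rfl | hN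
    · simp
    · have hN' : (0 : ℝ) < N := by exact_mod_cast hN
      rw [one_div, inv_mul_le_iff₀ hN', mul_one]
      refine (norm_sum_le _ _).trans ?_
      refine (Finset.sum_le_card_nsmul _ _ 1 fun n _ => ?_).trans ?_
      · rw [fourier_apply]; simp
      · simp
  have hKt : ∀ t : UnitAddCircle, t ≠ 0 → Tendsto (fun N => K N t) atTop (𝓝 0) := by
    intro t ht
    set z : ℂ := fourier 1 t with hz
    have hz1 : z ≠ 1 := by
      intro h1
      apply ht
      have h2 : (AddCircle.toCircle t : ℂ) = 1 := by rw [← fourier_one]; exact h1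
      have h3 : AddCircle.toCircle t = AddCircle.toCircle (0 : UnitAddCircle) := by
        apply Subtype.ext
        rw [h2]
        simp
      exact AddCircle.injective_toCircle one_ne_zero h3
    have hpow : ∀ n : ℕ, (fourier (n : ℤ) t : ℂ) = z ^ n := by
      intro n
      induction n with
      | zero => simp
      | succ n ih => rw [Nat.cast_succ, fourier_add, ih, pow_succ]
    have hsum : ∀ N : ℕ, ‖K N t‖ ≤ (2 / ‖z - 1‖) * (1 / (N : ℝ)) := by
      intro N
      rw [hK]
      simp only [hpow]
      rw [geom_sum_eq hz1, norm_mul, norm_div, norm_div, norm_one, Complex.norm_natCast]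
      have h4 : ‖z ^ N - 1‖ ≤ 2 := by
        refine (norm_sub_le _ _).trans ?_
        have hzn : ‖z‖ = 1 := by rw [hz, fourier_apply]; simp
        rw [norm_pow, hzn, one_pow, norm_one]
        norm_num
      rw [mul_comm]
      refine mul_le_mul_of_nonneg_right ?_ (by positivity)
      exact div_le_div_of_nonneg_right h4 (norm_nonneg _)
    refine squeeze_zero_norm hsum ?_
    have := (tendsto_one_div_atTop_nhds_zero_nat (𝕜 := ℝ)).const_mul (2 / ‖z - 1‖)
    simpa using this
  have hdiag : (ν.prod ν) {z : UnitAddCircle × UnitAddCircle | z.1 - z.2 = 0} = 0 := by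
    have hm : MeasurableSet {z : UnitAddCircle × UnitAddCircle | z.1 - z.2 = 0} :=
      (isClosed_eq (by fun_prop) continuous_const).measurableSet
    rw [Measure.prod_apply hm]
    have : ∀ x : UnitAddCircle, ν (Prod.mk x ⁻¹' {z : UnitAddCircle × UnitAddCircle | z.1 - z.2 = 0}) = 0 := by
      intro x
      have h1 : (Prod.mk x ⁻¹' {z : UnitAddCircle × UnitAddCircle | z.1 - z.2 = 0}) = {x} := by
        ext y
        simp [sub_eq_zero, eq_comm]
      rw [h1]
      exact hν x
    simp only [this, lintegral_zero]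
  have hlim : Tendsto (fun N => ∫ z, K N (z.1 - z.2) ∂(ν.prod ν)) atTop
      (𝓝 (∫ _z : UnitAddCircle × UnitAddCircle, (0 : ℂ) ∂(ν.prod ν))) := by
    refine tendsto_integral_of_dominated_convergence (fun _ => (1 : ℝ)) (fun N => ?_)
      (integrable_const _) (fun N => Eventually.of_forall fun z => hK1 N _) ?_
    · exact ((hKc N).comp (by fun_prop)).aestronglyMeasurable
    · have : ∀ᵐ z ∂(ν.prod ν), ¬ (z.1 - z.2 = 0) := by
        rw [ae_iff]
        simpa using hdiag
      filter_upwards [this] with z hz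
      exact hKt _ hz
  rw [integral_zero] at hlim
  have heq : ∀ N : ℕ, ∫ z, K N (z.1 - z.2) ∂(ν.prod ν) =
      (((1 / (N : ℝ)) * ∑ n ∈ Finset.range N, ‖fc ν n‖ ^ 2 : ℝ) : ℂ) := by
    intro N
    rw [hK]
    simp only
    rw [integral_const_mul, integral_finsetSum _ fun n _ => ?_]
    · push_cast
      congr 1
      refine Finset.sum_congr rfl fun n _ => ?_
      have := normSq_fc ν n
      push_cast at this
      rw [this]
    · refine Integrable.of_bound (C := 1) ?_ (Eventually.of_forall fun z => ?_)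
      · exact ((map_continuous (fourier (n : ℤ))).comp (by fun_prop)).aestronglyMeasurable
      · rw [fourier_apply]; simp
  simp only [heq] at hlim
  have := (Complex.continuous_re.tendsto _).comp hlim
  simpa only [Function.comp_def, Complex.ofReal_re, Complex.zero_re] using this

/-- an atomless measure cannot have large coefficients on a syndetic set -/
theorem no_syndetic {ν : Measure UnitAddCircle} [IsFiniteMeasure ν] (hν : ∀ x, ν {x} = 0) {c : ℝ}
    (hc : 0 < c) (M : ℕ) (h : ∀ L : ℕ, ∃ n : ℕ, L ≤ n ∧ n ≤ L + M ∧ c ≤ ‖fc ν n‖) : False := by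
  have h1 := wiener hν
  have h2 : Tendsto (fun k : ℕ => (k + 1) * (M + 1)) atTop atTop := by
    refine tendsto_atTop_mono (fun k => ?_) tendsto_id
    simp only [id]
    nlinarith
  have h3 := h1.comp h2
  have hblock : ∀ k : ℕ, (k : ℝ) * c ^ 2 ≤ ∑ n ∈ Finset.range (k * (M + 1)), ‖fc ν n‖ ^ 2 := by
    intro k
    induction k with
    | zero => simp
    | succ k ih =>
      have e : (k + 1) * (M + 1) = k * (M + 1) + (M + 1) := by ring
      rw [e, Finset.sum_range_add]
      push_cast
      have h4 : c ^ 2 ≤ ∑ x ∈ Finset.range (M + 1), ‖fc ν ((k * (M + 1) + x : ℕ) : ℤ)‖ ^ 2 := by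
        obtain ⟨n, hn1, hn2, hn3⟩ := h (k * (M + 1))
        refine le_trans ?_ (Finset.single_le_sum
          (f := fun x => ‖fc ν ((k * (M + 1) + x : ℕ) : ℤ)‖ ^ 2) (fun x _ => by positivity)
          (Finset.mem_range.2 (show n - k * (M + 1) < M + 1 by omega)))
        have e2 : k * (M + 1) + (n - k * (M + 1)) = n := by omega
        simp only [e2]
        gcongr
      push_cast at h4
      linarith
  have h5 : ∀ k : ℕ, c ^ 2 / (M + 1) ≤ (1 / (((k + 1) * (M + 1) : ℕ) : ℝ)) *
      ∑ n ∈ Finset.range ((k + 1) * (M + 1)), ‖fc ν n‖ ^ 2 := by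
    intro k
    have h6 := hblock (k + 1)
    rw [one_div, inv_mul_eq_div, div_le_div_iff₀ (by positivity) (by positivity)]
    push_cast at h6 ⊢
    nlinarith
  have h7 := ge_of_tendsto' h3 h5
  have h8 : 0 < c ^ 2 / ((M : ℝ) + 1) := by positivity
  linarith

end Pool.Agent.Y139.GR
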